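import Mathlib
import Pool.Agent.Helper85_Leo.Defs

/-!
# Leopoldt's conjecture at 3 for a positive proportion of totally real cubic fields: interfaces

Definitions and module statements of the squad `leo3` (MP_5f2860_nt).  Paper: PAPER_LEO3.md.
-/

set_option autoImplicit false

open NumberField IsDedekindDomain WithZero Module Polynomial
open Pool.Agent.Helper85_Leo

namespace Pool.Agent.Leo3

/-- The algebraic closure of `ℚ_3`. -/
abbrev Om : Type := PadicAlgCl 3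

section local3

variable {L : Type} [Field L]

/-- `ρ` fixes the image of `φ` pointwise. -/
def FixF (φ : L →+* Om) (ρ : Om ≃ₐ[ℚ_[3]] Om) : Prop := ∀ x : L, ρ (φ x) = φ x

/-- `t` lies in the completion of `L` at the place of `φ` (fixed field of the stabiliser). -/
def InLoc (φ : L →+* Om) (t : Om) : Prop := ∀ ρ : Om ≃ₐ[ℚ_[3]] Om, FixF φ ρ → ρ t = t

/-- `z` is a cube in every completion of `L` above `3`. -/
def LocCube (z : L) : Prop := ∀ φ : L →+* Om, ∃ t : Om, InLoc φ t ∧ t ^ 3 = φ z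

end local3

/-- no completion of `L` above `3` contains a primitive cube root of unity. -/
def NoMu (L : Type) [Field L] : Prop := ∀ (φ : L →+* Om) (t : Om), InLoc φ t → t ^ 3 = 1 → t = 1

/-- the valuation of `z` at every prime not above `6` is divisible by `3`. -/
def ValCube {L : Type} [Field L] [NumberField L] (z : L) : Prop :=
  ∀ q : HeightOneSpectrum (𝓞 L), (6 : 𝓞 L) ∉ q.asIdeal → ∃ x : ℤᵐ⁰, q.valuation L z = x ^ 3

/-- The Selmer type group vanishes. -/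
def W (L : Type) [Field L] [NumberField L] : Prop :=
  ∀ z : L, z ≠ 0 → ValCube z → LocCube z → ∃ t : L, t ^ 3 = z

/-- `E / K` is unramified at every prime of `E` not above `6`. -/
def UnrOut (K E : Type) [Field K] [NumberField K] [Field E] [NumberField E] [Algebra K E] : Prop :=
  ∀ (P : Ideal (𝓞 E)) [P.IsPrime], P ≠ ⊥ → (6 : 𝓞 E) ∉ P → Algebra.IsUnramifiedAt (𝓞 K) P

/-! ## Module statements: number theory -/

/-- LOC: no local cube root of unity goes up in cyclic cubic extensions, and local elements whose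
cube lies below lie below. -/
def LocStmt : Prop :=
  ∀ (K L : Type) [Field K] [Field L] [Algebra K L] [FiniteDimensional K L] [IsGalois K L],
    finrank K L = 3 → NoMu K →
      NoMu L ∧ ∀ (φ : L →+* Om) (t : Om), InLoc φ t →
        InLoc (φ.comp (algebraMap K L)) (t ^ 3) → InLoc (φ.comp (algebraMap K L)) t

/-- GUP: one step going up. -/
def GupStmt : Prop :=
  ∀ (K L : Type) [Field K] [NumberField K] [Field L] [NumberField L] [Algebra K L] [IsGalois K L],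
    finrank K L = 3 → UnrOut K L → NoMu K → W K → NoMu L ∧ W L

/-- TOW: going up in Galois extensions of 3-power degree. -/
def TowStmt : Prop :=
  ∀ (K L : Type) [Field K] [NumberField K] [Field L] [NumberField L] [Algebra K L] [IsGalois K L]
    (k : ℕ), finrank K L = 3 ^ k → UnrOut K L → NoMu K → W K → NoMu L ∧ W L

/-- DWN: going down a quadratic extension. -/
def DwnStmt : Prop :=
  ∀ (K L : Type) [Field K] [NumberField K] [Field L] [NumberField L] [Algebra K L],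
    finrank K L = 2 → NoMu L → W L → NoMu K ∧ W K

/-- CRT: cube roots of elements close to `1` in the completion (`‖·‖` on `PadicAlgCl 3`). -/
def CrtStmt : Prop :=
  ∀ (L : Type) [Field L] (φ : L →+* Om) (w : Om), InLoc φ w →
    ∀ j : ℕ, 2 ≤ j → ‖w - 1‖ ≤ (3 : ℝ)⁻¹ ^ j →
      ∃ w' : Om, InLoc φ w' ∧ w' ^ 3 = w ∧ ‖w' - 1‖ ≤ (3 : ℝ)⁻¹ ^ (j - 1)

/-- LEO: the vanishing implies Leopoldt's conjecture at 3. -/
def LeoStmt : Prop :=
  ∀ (L : Type) [Field L] [NumberField L], NoMu L → W L → LeopoldtAt L 3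

/-- NMF: the quadratic base field `ℚ(√(3m))`. -/
def NmfStmt : Prop :=
  ∀ (F : Type) [Field F] [NumberField F] (m : ℕ) (r : F), finrank ℚ F = 2 → r ^ 2 = 3 * (m : F) →
    m % 3 = 1 → NoMu F ∧
      ∀ (φ : F →+* Om) (t : Om), InLoc φ t →
        ∃ p q : ℚ_[3], t = algebraMap ℚ_[3] Om p + algebraMap ℚ_[3] Om q * φ r

/-- The arithmetic conditions on `t₀` (the trace of the minus part). -/
structure Bad (m : ℕ) (t₀ s₀ : ℚ) : Prop where
  disc : t₀ ^ 2 - 4 = 3 * m * s₀ ^ 2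
  noroot : ∀ x : ℚ, x ^ 3 - 3 * x - t₀ ≠ 0
  val : ∀ p : ℕ, p.Prime → p ≠ 3 → 0 ≤ padicValRat p t₀ ∨ (3 : ℤ) ∣ padicValRat p t₀
  loc : ∃ x : ℚ_[3], x ^ 3 - 3 * x = (t₀ : ℚ_[3])

/-- RED: reduction of `W F` to the rational numbers `t₀`, `s₀`. -/
def RedStmt : Prop :=
  ∀ (F : Type) [Field F] [NumberField F] (m : ℕ) (r : F), finrank ℚ F = 2 → r ^ 2 = 3 * (m : F) →
    Squarefree m → m % 24 = 7 → (∀ t₀ s₀ : ℚ, ¬ Bad m t₀ s₀) → W F

/-- HIL: Hilbert's Theorem 94 for a cyclic cubic extension without ramified primes over a field with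
finitely many units. -/
def HilStmt : Prop :=
  ∀ (K L : Type) [Field K] [NumberField K] [Field L] [NumberField L] [Algebra K L] [IsGalois K L],
    finrank K L = 3 → (∀ (P : Ideal (𝓞 L)) [P.IsPrime], P ≠ ⊥ → Algebra.IsUnramifiedAt (𝓞 K) P) →
    Units.rank K = 0 → (∀ x : K, x ^ 3 = 1 → x = 1) → 1 ≤ Units.rank L →
      3 ∣ Fintype.card (ClassGroup (𝓞 K))

/-- REF: the reflection step. -/
def RefStmt : Prop :=
  ∀ (F : Type) [Field F] [NumberField F] (m : ℕ) (s : F), finrank ℚ F = 2 → s ^ 2 = -(m : F) →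
    Squarefree m → m % 24 = 7 → (∃ t₀ s₀ : ℚ, Bad m t₀ s₀) → 3 ∣ Fintype.card (ClassGroup (𝓞 F))

/-! ## Module statements: binary cubic forms -/

/-- `b² - a c`, `b c - a d`, `c² - b d`: Hessian of `a x³ + 3 b x² y + 3 c x y² + d y³`, and
`4PR - Q²`. -/
def hP (a b c : ℤ) : ℤ := b ^ 2 - a * c

def hM (a b c d : ℤ) : ℤ :=
  4 * (b ^ 2 - a * c) * (c ^ 2 - b * d) - (b * c - a * d) ^ 2

/-- the cubic form has no nontrivial zero. -/
def Irr (a b c d : ℤ) : Prop :=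
  ∀ x y : ℤ, a * x ^ 3 + 3 * b * x ^ 2 * y + 3 * c * x * y ^ 2 + d * y ^ 3 = 0 → x = 0 ∧ y = 0

/-- QUA: ideals of the imaginary quadratic field `ℚ(√-m)`: integers and bases. -/
def QuaStmt : Prop :=
  ∀ (F : Type) [Field F] [NumberField F] (m : ℕ) (s : F), finrank ℚ F = 2 → s ^ 2 = -(m : F) →
    Squarefree m → m % 4 = 3 →
    ∃ c : F ≃ₐ[ℚ] F, c s = -s ∧
      (∀ x : 𝓞 F, c (x : F) = x → ∃ k : ℤ, (x : F) = k) ∧
      (∀ x : 𝓞 F, ∃ k : ℤ, (x : F) - c x = k * s) ∧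
      (∀ x : 𝓞 F, (x : F) * c x = (Ideal.absNorm (Ideal.span {x}) : ℕ)) ∧
      ∀ I : Ideal (𝓞 F), I ≠ ⊥ → ∃ u v : 𝓞 F, u ∈ I ∧ v ∈ I ∧ u ≠ 0 ∧
        (∀ x ∈ I, ∃ p q : ℤ, x = p * u + q * v) ∧
        (u : F) * c v - (v : F) * c u = (Ideal.absNorm I : ℕ) * s ∧
        3 * (Ideal.absNorm (Ideal.span {u})) ^ 2 ≤ m * (Ideal.absNorm I) ^ 2

/-- CUB: the cubic form of an ideal `I` with `n₀ I³ ⊆ (β)`. -/
def CubStmt : Prop :=
  ∀ (F : Type) [Field F] [NumberField F] (m : ℕ) (s : F), finrank ℚ F = 2 → s ^ 2 = -(m : F) →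
    Squarefree m → m % 4 = 3 → ∀ c : F ≃ₐ[ℚ] F, c s = -s →
      (∀ x : 𝓞 F, ∃ k : ℤ, (x : F) - c x = k * s) →
      ∀ (I : Ideal (𝓞 F)) (u v β : 𝓞 F) (n₀ : ℕ), n₀ ≠ 0 → β ≠ 0 → u ∈ I → v ∈ I →
        (u : F) * c v - (v : F) * c u = (Ideal.absNorm I : ℕ) * s →
        (∀ x ∈ I ^ 3, β ∣ n₀ * x) → (β : F) * c β = n₀ * (Ideal.absNorm I : ℕ) ^ 3 →
        ∃ a₀ a₁ a₂ a₃ : ℤ,
          (∀ x y : ℤ, ((a₀ * x ^ 3 + 3 * a₁ * x ^ 2 * y + 3 * a₂ * x * y ^ 2 + a₃ * y ^ 3 : ℤ) : F)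
              * s = n₀ * (x * u + y * v) ^ 3 / β - c (n₀ * (x * u + y * v) ^ 3 / β)) ∧
          ((hP a₀ a₁ a₂ : ℤ) : F) * (Ideal.absNorm I : ℕ) = n₀ * (u * c u) ∧
          hM a₀ a₁ a₂ a₃ = n₀ ^ 2 * m

/-- EIS: a class of order 3 gives a form. -/
def EisStmt : Prop :=
  ∀ (F : Type) [Field F] [NumberField F] (m : ℕ) (s : F), finrank ℚ F = 2 → s ^ 2 = -(m : F) →
    Squarefree m → m % 4 = 3 → 3 ∣ Fintype.card (ClassGroup (𝓞 F)) →
    ∃ a b c d : ℤ, a ≠ 0 ∧ 0 < hP a b c ∧ 3 * (hP a b c) ^ 2 ≤ m ∧ hM a b c d = m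

/-- FRM: if there is no class of order 3 there is a form with `4PR - Q² = 4m`. -/
def FrmStmt : Prop :=
  ∀ (F : Type) [Field F] [NumberField F] (m : ℕ) (s : F), finrank ℚ F = 2 → s ^ 2 = -(m : F) →
    Squarefree m → m % 24 = 7 → ¬ 3 ∣ Fintype.card (ClassGroup (𝓞 F)) →
    ∃ a b c d : ℤ, Irr a b c d ∧ hM a b c d = 4 * m

/-! ## Module statements: the cubic fields -/

/-- DSC: discriminant of the cubic field of a form. -/
def DscStmt : Prop :=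
  ∀ (K : Type) [Field K] [NumberField K] (ξ : K) (a b c d : ℤ) (m : ℕ), finrank ℚ K = 3 →
    Irr a b c d → hM a b c d = 4 * m → a * ξ ^ 3 + 3 * b * ξ ^ 2 + 3 * c * ξ + d = 0 →
    ∃ n : ℤ, n ≠ 0 ∧ discr K * n ^ 2 = 108 * m

/-- TRL: the cubic field is totally real. -/
def TrlStmt : Prop :=
  ∀ (K : Type) [Field K] [NumberField K] (ξ : K) (a b c d : ℤ) (m : ℕ), 0 < m → finrank ℚ K = 3 →
    Irr a b c d → hM a b c d = 4 * m → a * ξ ^ 3 + 3 * b * ξ ^ 2 + 3 * c * ξ + d = 0 →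
    IsTotallyReal K

/-- LFD: cubic field, quadratic field and sextic field of a form. -/
def LfdStmt : Prop :=
  ∀ (a b c d : ℤ) (m : ℕ), Squarefree m → m % 24 = 7 → Irr a b c d → hM a b c d = 4 * m →
    ∃ (K F L : Type) (_ : Field K) (_ : NumberField K) (_ : Field F) (_ : NumberField F)
      (_ : Field L) (_ : NumberField L) (_ : Algebra K L) (_ : Algebra F L) (ξ : K) (r : F),
      finrank ℚ K = 3 ∧ a * ξ ^ 3 + 3 * b * ξ ^ 2 + 3 * c * ξ + d = 0 ∧ ¬ IsGalois ℚ K ∧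
      finrank ℚ F = 2 ∧ r ^ 2 = 3 * (m : F) ∧ finrank K L = 2 ∧ finrank F L = 3 ∧ IsGalois F L

/-- UNR: unramified outside 6. -/
def UnrStmt : Prop :=
  ∀ (F L : Type) [Field F] [NumberField F] [Field L] [NumberField L] [Algebra F L] [IsGalois F L]
    (a b c d : ℤ) (m : ℕ) (ξ : L), finrank ℚ F = 2 → finrank F L = 3 → Squarefree m → m % 24 = 7 →
    Irr a b c d → hM a b c d = 4 * m → a * ξ ^ 3 + 3 * b * ξ ^ 2 + 3 * c * ξ + d = 0 → UnrOut F L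

/-! ## Module statements: counting -/

/-- `w₂ - w₁` for real `a`, `P`. -/
noncomputable def hh (N a P : ℝ) : ℝ :=
  Real.sqrt (4 * P ^ 3 - 3 * a ^ 2 * P ^ 2) - Real.sqrt (4 * P ^ 3 - a ^ 2 * N)

/-- SUP: sum over an arithmetic progression of `P`. -/
def SupStmt : Prop :=
  ∀ (N a r : ℕ), 1 ≤ a →
    ∑ P ∈ (Finset.range (N + 1)).filter (fun P => 1 ≤ P ∧ 3 * P ^ 2 ≤ N ∧ P % (6 * a) = r),
        hh N a P ≤
      1 / (6 * a) * (∫ P in (0 : ℝ)..Real.sqrt (N / 3), hh N a P) + a * Real.sqrt N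

/-- SUA: sum over `a` (odd or even) for fixed `P`. -/
def SuaStmt : Prop :=
  ∀ (N P : ℝ), 0 < P → 3 * P ^ 2 ≤ N → ∀ (ε A : ℕ),
    ∑ a ∈ (Finset.range A).filter (fun a => 1 ≤ a ∧ a % 2 = ε), hh N a P / (a : ℝ) ^ 2 ≤
      Real.pi / 4 * (Real.sqrt N - Real.sqrt 3 * P) +
        min (2 * P ^ (3 / 2 : ℝ)) (N / (2 * P ^ (3 / 2 : ℝ)))

/-- normalised quadruples. -/
def Quad (N : ℕ) (v : ℤ × ℤ × ℤ × ℤ) : Prop :=
  1 ≤ v.1 ∧ -v.1 < 2 * v.2.1 ∧ 2 * v.2.1 ≤ v.1 ∧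
  0 ≤ 2 * v.2.1 ^ 3 - 3 * v.1 * v.2.1 * v.2.2.1 + v.1 ^ 2 * v.2.2.2 ∧
  0 < hP v.1 v.2.1 v.2.2.1 ∧ 3 * (hP v.1 v.2.1 v.2.2.1) ^ 2 ≤ hM v.1 v.2.1 v.2.2.1 v.2.2.2 ∧
  hM v.1 v.2.1 v.2.2.1 v.2.2.2 ≤ N ∧ hM v.1 v.2.1 v.2.2.1 v.2.2.2 % 24 = 7

/-- QNM: normalisation of a quadruple (sign, translation, reflection). -/
def QnmStmt : Prop :=
  ∀ (N m : ℕ) (a b c d : ℤ), m ≤ N → m % 24 = 7 → a ≠ 0 → 0 < hP a b c → 3 * (hP a b c) ^ 2 ≤ m →
    hM a b c d = m → ∃ v : ℤ × ℤ × ℤ × ℤ, Quad N v ∧ hM v.1 v.2.1 v.2.2.1 v.2.2.2 = m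

/-- QCT: number of normalised quadruples, in terms of a bound `B a` for the sums over `P` in
arithmetic progressions. -/
def QctStmt : Prop :=
  ∀ (N : ℕ) (B : ℕ → ℝ),
    (∀ a r : ℕ, 1 ≤ a → ∑ P ∈ (Finset.range (N + 1)).filter
        (fun P => 1 ≤ P ∧ 3 * P ^ 2 ≤ N ∧ P % (6 * a) = r), (hh N a P / (6 * (a : ℝ) ^ 2) + 1) ≤ B a) →
    {v | Quad N v}.Finite ∧ ({v | Quad N v}.ncard : ℝ) ≤
      ∑ a ∈ (Finset.range (N + 1)).filter (fun a => 1 ≤ a ∧ 27 * a ^ 4 ≤ 16 * N),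
        3 * (if a % 2 = 1 then (a : ℝ) else (a : ℝ) / 2) * B a

/-- CNT: the number of `m ≤ N` that have a form. -/
def CntStmt : Prop :=
  ∃ N₀ : ℕ, ∀ N : ℕ, N₀ ≤ N →
    ({m : ℕ | m ≤ N ∧ m % 24 = 7 ∧
      ∃ a b c d : ℤ, a ≠ 0 ∧ 0 < hP a b c ∧ 3 * (hP a b c) ^ 2 ≤ m ∧ hM a b c d = m}.ncard : ℝ)
      ≤ 3 / 100 * N

/-- SQF: squarefree numbers. -/
def SqfStmt : Prop :=
  ∃ N₀ : ℕ, ∀ N : ℕ, N₀ ≤ N →
    (31 / 1000 : ℝ) * N ≤
      ({m : ℕ | m ≤ N ∧ m % 24 = 7 ∧ Squarefree m}.ncard : ℝ)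

/-! ## Final statement -/

/-- FIN: at least `c X` integers up to `X` are discriminants of totally real, non-Galois cubic fields
`K` such that Leopoldt's conjecture at 3 holds for `K` and for every Galois extension of `K` of
3-power degree that is unramified outside the primes above 6. -/
def FinStmt : Prop :=
  ∃ c : ℝ, 0 < c ∧ ∃ X₀ : ℝ, ∀ X : ℝ, X₀ ≤ X →
    c * X ≤ ({D : ℤ | 0 < D ∧ (D : ℝ) ≤ X ∧ ∃ (K : Type) (_ : Field K) (_ : NumberField K),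
      finrank ℚ K = 3 ∧ IsTotallyReal K ∧ ¬ IsGalois ℚ K ∧ discr K = D ∧
      ∀ (E : Type) [Field E] [NumberField E] [Algebra K E] [IsGalois K E] (k : ℕ),
        finrank K E = 3 ^ k → UnrOut K E → LeopoldtAt E 3}.ncard : ℝ)

end Pool.Agent.Leo3
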